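import Pool.Agent.U220.RD.Stm

namespace Pool.Agent.U796.RD

open IsDedekindDomain IsDedekindDomain.HeightOneSpectrum WithZero

set_option linter.deprecated false

section core

variable {R S L : Type} [CommRing R] [IsDedekindDomain R] [CommRing S] [IsDedekindDomain S]
    [Field L] [Algebra R S] [Algebra S L]
    [IsFractionRing S L] [Algebra R L] [IsScalarTower R S L]

omit [CommRing R] [IsDedekindDomain R] [Algebra R S] [Algebra R L] [IsScalarTower R S L] in
theorem eqO (v : HeightOneSpectrum S) (O : ValuationSubring L)
    (h1 : ∀ s : S, algebraMap S L s ∈ O)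
    (h2 : ∀ s : S, s ∉ v.asIdeal → O.valuation (algebraMap S L s) = 1)
    (h3 : O ≠ ⊤) : (v.valuation L).valuationSubring = O := by
  rw [← valuationSubringAtPrime_eq_valuationSubring]
  refine ValuationSubring.eq_of_le_of_ne_top _ ?_ h3
  rintro x ⟨a, s, hs, rfl⟩
  rw [← ValuationSubring.valuation_le_one_iff, map_mul, map_inv₀, h2 s hs, inv_one, mul_one]
  exact O.valuation_le_one ⟨_, h1 a⟩

omit [IsDedekindDomain R] in
theorem ramIdx (x : R) (v : HeightOneSpectrum S) (hx : algebraMap R S x ≠ 0) :
    v.valuation L (algebraMap R L x) =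
      exp (-(Ideal.ramificationIdx' (Ideal.span {x}) v.asIdeal : ℤ)) := by
  rw [IsScalarTower.algebraMap_apply R S L, valuation_of_algebraMap, intValuation_if_neg _ hx]
  have h0 : Ideal.map (algebraMap R S) (Ideal.span {x}) = Ideal.span {algebraMap R S x} := by
    rw [Ideal.map_span, Set.image_singleton]
  have h1 : Ideal.map (algebraMap R S) (Ideal.span {x}) ≠ ⊥ := by
    rw [h0]
    simpa using hx
  rw [Ideal.IsDedekindDomain.ramificationIdx'_eq_normalizedFactors_count h1 v.isPrime v.ne_bot, h0,
    Ideal.count_associates_factors_eq (by rwa [h0] at h1) v.isPrime v.ne_bot]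

omit [CommRing R] [IsDedekindDomain R] [Algebra R S] [Algebra R L] [IsScalarTower R S L] in
theorem ltO (v : HeightOneSpectrum S) (z : L) :
    (v.valuation L).valuationSubring.valuation z < 1 ↔ v.valuation L z < 1 :=
  (Valuation.isEquiv_iff_val_lt_one.mp
    (Valuation.isEquiv_valuation_valuationSubring (v.valuation L)).symm)

omit [CommRing R] [IsDedekindDomain R] [Algebra R S] [Algebra R L] [IsScalarTower R S L] in
theorem eqvO (v : HeightOneSpectrum S) (y z : L) :
    (v.valuation L).valuationSubring.valuation y = (v.valuation L).valuationSubring.valuation z ↔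
      v.valuation L y = v.valuation L z :=
  (Valuation.IsEquiv.val_eq
    (Valuation.isEquiv_valuation_valuationSubring (v.valuation L)).symm)

omit [CommRing R] [IsDedekindDomain R] [Algebra R S] [Algebra R L] [IsScalarTower R S L] in
/-- a generator of the maximal ideal has valuation `exp (-1)` -/
theorem unif (v : HeightOneSpectrum S) (π : L) (h0 : π ≠ 0) (h1 : v.valuation L π < 1)
    (h2 : ∀ x : L, v.valuation L x < 1 → v.valuation L (x / π) ≤ 1) :
    v.valuation L π = exp (-1 : ℤ) := by
  obtain ⟨ϖ, hϖ⟩ := v.valuation_exists_uniformizer L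
  have hϖ1 : v.valuation L ϖ < 1 := by
    rw [hϖ, ← exp_zero, exp_lt_exp]
    norm_num
  have h3 := h2 ϖ hϖ1
  have hpos : 0 < v.valuation L π := (Valuation.pos_iff _).mpr h0
  rw [map_div₀, div_le_one₀ hpos, hϖ] at h3
  refine le_antisymm ?_ h3
  have hne : v.valuation L π ≠ 0 := hpos.ne'
  rw [← exp_log hne] at h1 ⊢
  rw [← exp_zero, exp_lt_exp] at h1
  rw [exp_le_exp]
  omega

/-- the fundamental identity in terms of valuation subrings -/
theorem core {F : Type} [Field F] [Algebra R F] [IsFractionRing R F] [Algebra F L]
    [IsScalarTower R F L] [Module.Finite R S] [Module.IsTorsionFree R S]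
    (x : R) (hx0 : x ≠ 0) (hmax : (Ideal.span {x}).IsMaximal)
    (V : Finset (ValuationSubring L)) (r s : ValuationSubring L → ℕ)
    (hV : ∀ O : ValuationSubring L, O ∈ V ↔
      (∀ a : R, algebraMap R L a ∈ O) ∧ O.valuation (algebraMap R L x) < 1)
    (hr : ∀ O ∈ V, ∃ π : L, π ≠ 0 ∧ O.valuation π < 1 ∧
      (∀ z : L, O.valuation z < 1 → z / π ∈ O) ∧
      O.valuation (algebraMap R L x) = O.valuation π ^ r O)
    (hs : ∀ v : HeightOneSpectrum S, (v.valuation L).valuationSubring ∈ V →
      v.asIdeal.LiesOver (Ideal.span {x}) →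
      Ideal.inertiaDeg' (Ideal.span {x}) v.asIdeal = s (v.valuation L).valuationSubring) :
    Module.finrank F L = ∑ O ∈ V, r O * s O := by
  classical
  have hp0 : Ideal.span {x} ≠ ⊥ := by simpa using hx0
  have hinj : Function.Injective (algebraMap R S) := FaithfulSMul.algebraMap_injective R S
  have hxS : algebraMap R S x ≠ 0 := by
    intro h
    exact hx0 (hinj (by rw [h, map_zero]))
  have hxL : algebraMap R L x ≠ 0 := by
    rw [IsScalarTower.algebraMap_apply R S L]
    intro h
    exact hxS (IsFractionRing.injective S L (by rw [h, map_zero]))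
  rw [← Ideal.sum_ramification_inertia S F L hp0]
  have hP : ∀ P ∈ IsDedekindDomain.primesOverFinset (Ideal.span {x}) S,
      P.IsPrime ∧ P.LiesOver (Ideal.span {x}) := fun P hP =>
    (IsDedekindDomain.mem_primesOverFinset_iff hp0 _).mp hP
  have hne : ∀ P ∈ IsDedekindDomain.primesOverFinset (Ideal.span {x}) S, P ≠ ⊥ := by
    intro P hPm
    have := (hP P hPm).2
    exact Ideal.ne_bot_of_liesOver_of_ne_bot hp0 P
  have key : ∀ v : HeightOneSpectrum S, v.asIdeal.LiesOver (Ideal.span {x}) →
      (v.valuation L).valuationSubring ∈ V := by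
    intro v hv
    rw [hV]
    constructor
    · intro a
      rw [Valuation.mem_valuationSubring_iff, IsScalarTower.algebraMap_apply R S L]
      exact v.valuation_le_one _
    · rw [ltO, IsScalarTower.algebraMap_apply R S L]
      refine (v.valuation_lt_one_iff_mem (K := L) _).mpr ?_
      have : x ∈ (v.asIdeal).under R := by
        rw [← hv.over]
        exact Ideal.mem_span_singleton_self x
      exact this
  refine Finset.sum_bij (fun P hPm =>
    ((⟨P, (hP P hPm).1, hne P hPm⟩ : HeightOneSpectrum S).valuation L).valuationSubring)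
    ?_ ?_ ?_ ?_
  · intro P hPm
    exact key _ (hP P hPm).2
  · intro P hPm Q hQm h
    have := eq_of_valuation_isEquiv_valuation (K := L)
      (p := (⟨P, (hP P hPm).1, hne P hPm⟩ : HeightOneSpectrum S))
      (q := (⟨Q, (hP Q hQm).1, hne Q hQm⟩ : HeightOneSpectrum S))
      ((Valuation.isEquiv_iff_valuationSubring _ _).mpr h)
    exact congrArg HeightOneSpectrum.asIdeal this
  · intro O hO
    obtain ⟨h1, h2⟩ := (hV O).mp hO
    have hSO : ∀ s : S, algebraMap S L s ∈ O := by
      intro s
      have h3 : IsIntegral R (algebraMap S L s) :=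
        (Algebra.IsIntegral.isIntegral (R := R) s).algebraMap
      let _ : Algebra R O :=
        ((algebraMap R L).codRestrict O.toSubring h1 : R →+* O.toSubring).toAlgebra
      have : IsScalarTower R O L := IsScalarTower.of_algebraMap_eq fun a => rfl
      have h4 : IsIntegral O (algebraMap S L s) := h3.tower_top
      obtain ⟨w, hw⟩ := IsIntegrallyClosed.isIntegral_iff.mp h4
      rw [← hw]
      exact w.2
    have hOtop : O ≠ ⊤ := by
      rintro rfl
      have h3 : (⊤ : ValuationSubring L).valuation (algebraMap R L x)⁻¹ ≤ 1 :=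
        (ValuationSubring.valuation_le_one_iff _ _).mpr (ValuationSubring.mem_top _)
      have h4 : (⊤ : ValuationSubring L).valuation (algebraMap R L x * (algebraMap R L x)⁻¹) < 1 := by
        rw [map_mul]
        exact mul_lt_one_of_lt_of_le h2 h3
      rw [mul_inv_cancel₀ hxL, map_one] at h4
      exact lt_irrefl _ h4
    let g : S →+* O := (algebraMap S L).codRestrict O.toSubring hSO
    have hg : ∀ s : S, s ∈ Ideal.comap g (IsLocalRing.maximalIdeal O) ↔
        O.valuation (algebraMap S L s) < 1 := by
      intro s
      rw [Ideal.mem_comap]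
      exact O.valuation_lt_one_iff (g s)
    have hprime : (Ideal.comap g (IsLocalRing.maximalIdeal O)).IsPrime := inferInstance
    have hxm : algebraMap R S x ∈ Ideal.comap g (IsLocalRing.maximalIdeal O) := by
      rw [hg, ← IsScalarTower.algebraMap_apply R S L]
      exact h2
    have hnb : Ideal.comap g (IsLocalRing.maximalIdeal O) ≠ ⊥ := by
      intro h
      rw [h] at hxm
      exact hxS (by simpa using hxm)
    have hlies : (Ideal.comap g (IsLocalRing.maximalIdeal O)).LiesOver (Ideal.span {x}) := by
      refine ⟨hmax.eq_of_le ?_ ?_⟩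
      · exact (Ideal.IsPrime.under R _).ne_top
      · rw [Ideal.span_singleton_le_iff_mem]
        exact hxm
    refine ⟨Ideal.comap g (IsLocalRing.maximalIdeal O),
      (IsDedekindDomain.mem_primesOverFinset_iff hp0 _).mpr ⟨hprime, hlies⟩, ?_⟩
    refine eqO _ O hSO ?_ hOtop
    intro s hs'
    have h5 : ¬ O.valuation (algebraMap S L s) < 1 := fun h => hs' ((hg s).mpr h)
    exact le_antisymm (O.valuation_le_one ⟨_, hSO s⟩) (not_lt.mp h5)
  · intro P hPm
    set v : HeightOneSpectrum S := ⟨P, (hP P hPm).1, hne P hPm⟩ with hv
    have hmem := key v (hP P hPm).2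
    obtain ⟨π, h0, h1, h2, h3⟩ := hr _ hmem
    have hu := unif v π h0 ((ltO v π).mp h1) (fun z hz => h2 z ((ltO v z).mpr hz))
    have h4 : Ideal.ramificationIdx' (Ideal.span {x}) P = r (v.valuation L).valuationSubring := by
      rw [← map_pow, eqvO, map_pow, hu, ramIdx x v hxS, ← exp_nsmul, exp_inj] at h3
      simp only [nsmul_eq_mul, mul_neg, mul_one, neg_inj] at h3
      exact_mod_cast h3
    rw [h4, hs v hmem (hP P hPm).2]

end core

/-- the inertia degree over `(X)` in terms of a residue field of the valuation subring -/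
theorem inertia {K S L : Type} [Field K] [CommRing S] [IsDedekindDomain S] [Field L]
    [Algebra (Polynomial K) S] [Algebra S L] [IsFractionRing S L]
    (v : HeightOneSpectrum S)
    (hv : v.asIdeal.LiesOver (Ideal.span {(Polynomial.X : Polynomial K)}))
    (k : Type) [Field k] (ρ : (v.valuation L).valuationSubring →+* k)
    (j : K →+* (v.valuation L).valuationSubring) (hρ : Function.Surjective ρ)
    (hj : ∀ c : K, ((j c : (v.valuation L).valuationSubring) : L) =
      algebraMap S L (algebraMap (Polynomial K) S (Polynomial.C c))) :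
    Ideal.inertiaDeg' (Ideal.span {(Polynomial.X : Polynomial K)}) v.asIdeal =
      @Module.finrank K k _ _ (RingHom.toAlgebra (ρ.comp j)).toModule := by
  rw [Ideal.inertiaDeg'_algebraMap]
  have hmem : ∀ s : S, algebraMap S L s ∈ (v.valuation L).valuationSubring :=
    fun s => v.valuation_le_one (K := L) s
  let g : S →+* (v.valuation L).valuationSubring :=
    (algebraMap S L).codRestrict (v.valuation L).valuationSubring.toSubring hmem
  let φ : S →+* k := ρ.comp g
  have hkρ : RingHom.ker ρ = IsLocalRing.maximalIdeal _ :=
    IsLocalRing.eq_maximalIdeal (RingHom.ker_isMaximal_of_surjective ρ hρ)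
  have hker : RingHom.ker φ = v.asIdeal := by
    ext s
    have h1 : s ∈ RingHom.ker φ ↔ g s ∈ RingHom.ker ρ := Iff.rfl
    rw [h1, hkρ, ValuationSubring.valuation_lt_one_iff]
    refine (ltO v (algebraMap S L s)).trans ?_
    exact v.valuation_lt_one_iff_mem (K := L) s
  have hsurj : Function.Surjective φ := by
    intro z
    obtain ⟨o, ho⟩ := hρ z
    obtain ⟨n, d, hnd⟩ := v.exists_primeCompl_mul_eq_of_integer (o : L) o.2
    obtain ⟨c, i, hi, hci⟩ := v.isMaximal.exists_inv d.2
    refine ⟨n * c, ?_⟩
    have h1 : φ c * φ d = 1 := by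
      have h2 := congrArg φ hci
      rw [map_add, map_mul, map_one] at h2
      have h3 : φ i = 0 := by
        rw [← RingHom.mem_ker, hker]
        exact hi
      rw [h3, add_zero] at h2
      exact h2
    have h4 : o * g d = g n := Subtype.ext hnd
    have h5 : φ n = z * φ d := by
      have : φ n = ρ (o * g d) := by rw [h4]; rfl
      rw [this, map_mul, ho]
      rfl
    rw [map_mul, h5, mul_assoc, mul_comm (φ d), h1, mul_one]
  let i : (Polynomial K ⧸ Ideal.span {(Polynomial.X : Polynomial K)}) ≃+* K :=
    (Ideal.quotEquivOfEq Polynomial.ker_constantCoeff.symm).trans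
      (RingHom.quotientKerEquivOfSurjective Polynomial.constantCoeff_surjective)
  let j' : (S ⧸ v.asIdeal) ≃+* k := (Ideal.quotEquivOfEq hker.symm).trans
    (RingHom.quotientKerEquivOfSurjective hsurj)
  let _ := RingHom.toAlgebra (ρ.comp j)
  refine Algebra.finrank_eq_of_equiv_equiv i j' ?_
  apply Ideal.Quotient.ringHom_ext
  apply Polynomial.ringHom_ext
  · intro c
    have h1 : j' (Ideal.Quotient.mk _ (algebraMap (Polynomial K) S (Polynomial.C c))) =
        φ (algebraMap (Polynomial K) S (Polynomial.C c)) := rfl
    have h2 : g (algebraMap (Polynomial K) S (Polynomial.C c)) = j c :=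
      Subtype.ext (hj c).symm
    have h3 : φ (algebraMap (Polynomial K) S (Polynomial.C c)) = ρ (j c) := by
      change ρ (g _) = _
      rw [h2]
    have h4 : i (Ideal.Quotient.mk _ (Polynomial.C c)) = c := by
      change Polynomial.constantCoeff (Polynomial.C c) = c
      simp
    change ρ (j (i (Ideal.Quotient.mk _ (Polynomial.C c)))) = _
    rw [h4, ← h3]
    rfl
  · have h4 : i (Ideal.Quotient.mk _ (Polynomial.X)) = 0 := by
      change Polynomial.constantCoeff (Polynomial.X) = (0 : K)
      simp
    change ρ (j (i (Ideal.Quotient.mk _ (Polynomial.X)))) =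
      φ (algebraMap (Polynomial K) S Polynomial.X)
    rw [h4, map_zero, map_zero, eq_comm, ← RingHom.mem_ker, hker]
    have : (Polynomial.X : Polynomial K) ∈ (v.asIdeal).under (Polynomial K) := by
      rw [← hv.over]
      exact Ideal.mem_span_singleton_self _
    exact this

theorem t_RAM : Pool.Agent.U220.RD.S_RAM := by
  intro κ _ _ K y hy hfin V r s hV hr hs
  classical
  have hyF : y ∈ IntermediateField.adjoin K {y} := IntermediateField.mem_adjoin_simple_self K y
  let _ : Algebra (Polynomial K) κ := (Polynomial.aeval (R := K) y).toRingHom.toAlgebra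
  have hκ : ∀ f : Polynomial K, algebraMap (Polynomial K) κ f = Polynomial.aeval y f :=
    fun f => rfl
  let _ : Algebra (Polynomial K) (IntermediateField.adjoin K {y}) :=
    (Polynomial.aeval (R := K) (⟨y, hyF⟩ : IntermediateField.adjoin K {y})).toRingHom.toAlgebra
  have hF : ∀ f : Polynomial K, ((algebraMap (Polynomial K) (IntermediateField.adjoin K {y}) f :
      IntermediateField.adjoin K {y}) : κ) = Polynomial.aeval y f := by
    intro f
    change (algebraMap (IntermediateField.adjoin K {y}) κ)
      (Polynomial.aeval (⟨y, hyF⟩ : IntermediateField.adjoin K {y}) f) = _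
    rw [← Polynomial.aeval_algebraMap_apply]
    rfl
  have t1 : IsScalarTower (Polynomial K) (IntermediateField.adjoin K {y}) κ :=
    IsScalarTower.of_algebraMap_eq fun f => (hF f).symm
  have hinj : Function.Injective (algebraMap (Polynomial K) κ) := by
    have := transcendental_iff_injective.mp hy
    exact this
  have hinjF : Function.Injective
      (algebraMap (Polynomial K) (IntermediateField.adjoin K {y})) := by
    intro f g h
    apply hinj
    rw [hκ, hκ, ← hF, ← hF, h]
  have tf : FaithfulSMul (Polynomial K) (IntermediateField.adjoin K {y}) :=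
    (faithfulSMul_iff_algebraMap_injective _ _).mpr hinjF
  have t2 : IsFractionRing (Polynomial K) (IntermediateField.adjoin K {y}) := by
    refine IsFractionRing.of_field _ _ ?_
    intro z
    obtain ⟨f, g, hfg⟩ := (IntermediateField.mem_adjoin_simple_iff K (z : κ)).mp z.2
    refine ⟨f, g, ?_⟩
    apply Subtype.ext
    rw [hfg]
    have : ((algebraMap (Polynomial K) (IntermediateField.adjoin K {y}) f /
        algebraMap (Polynomial K) (IntermediateField.adjoin K {y}) g :
        IntermediateField.adjoin K {y}) : κ) =
        ((algebraMap (Polynomial K) (IntermediateField.adjoin K {y}) f :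
          IntermediateField.adjoin K {y}) : κ) /
        ((algebraMap (Polynomial K) (IntermediateField.adjoin K {y}) g :
          IntermediateField.adjoin K {y}) : κ) := rfl
    rw [this, hF, hF]
  have t3 : CharZero (IntermediateField.adjoin K {y}) := by
    have : CharZero K := charZero_of_injective_algebraMap (algebraMap ℂ K).injective
    exact charZero_of_injective_algebraMap (algebraMap K (IntermediateField.adjoin K {y})).injective
  have t4 : Algebra.IsSeparable (IntermediateField.adjoin K {y}) κ := inferInstance
  have t5 : IsDedekindDomain (integralClosure (Polynomial K) κ) :=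
    IsIntegralClosure.isDedekindDomain (Polynomial K) (IntermediateField.adjoin K {y}) κ _
  have t6 : IsFractionRing (integralClosure (Polynomial K) κ) κ :=
    IsIntegralClosure.isFractionRing_of_finite_extension (Polynomial K)
      (IntermediateField.adjoin K {y}) κ _
  have t7 : Module.Finite (Polynomial K) (integralClosure (Polynomial K) κ) :=
    IsIntegralClosure.finite (Polynomial K) (IntermediateField.adjoin K {y}) κ _
  have t8 : FaithfulSMul (Polynomial K) (integralClosure (Polynomial K) κ) := by
    rw [faithfulSMul_iff_algebraMap_injective]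
    intro f g h
    apply hinj
    have := congrArg (fun z : integralClosure (Polynomial K) κ => (z : κ)) h
    exact this
  have t9 : Module.IsTorsionFree (Polynomial K) (integralClosure (Polynomial K) κ) :=
    inferInstance
  have hX : algebraMap (Polynomial K) κ Polynomial.X = y := by
    rw [hκ, Polynomial.aeval_X]
  refine core (R := Polynomial K) (S := integralClosure (Polynomial K) κ) (L := κ)
    (F := IntermediateField.adjoin K {y}) Polynomial.X Polynomial.X_ne_zero ?_ V r s ?_ ?_ ?_
  · rw [← Polynomial.ker_constantCoeff]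
    exact RingHom.ker_isMaximal_of_surjective _ Polynomial.constantCoeff_surjective
  · intro O
    rw [hV, hX]
    constructor
    · rintro ⟨h1, h2⟩
      refine ⟨fun f => ?_, h2⟩
      rw [hκ, Polynomial.aeval_eq_sum_range]
      refine sum_mem fun i _ => ?_
      rw [Algebra.smul_def]
      refine mul_mem (h1 _ (f.coeff i).2) (pow_mem ?_ _)
      exact (ValuationSubring.valuation_le_one_iff _ _).mp h2.le
    · rintro ⟨h1, h2⟩
      refine ⟨fun x hx => ?_, h2⟩
      have := h1 (Polynomial.C ⟨x, hx⟩)
      rw [hκ, Polynomial.aeval_C] at this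
      exact this
  · intro O hO
    rw [hX]
    exact hr O hO
  · intro v hv hlies
    obtain ⟨k, hk, ρ, j, hρ, hj, hfr⟩ := hs _ hv
    rw [← hfr]
    refine inertia (K := K) (L := κ) v hlies k ρ j hρ ?_
    intro c
    rw [hj, ← IsScalarTower.algebraMap_apply, hκ, Polynomial.aeval_C]
    rfl

end Pool.Agent.U796.RD
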